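import Mathlib
set_option autoImplicit false
open Real

namespace Run7.h81.Cham

/-- `R = sqrt(x^2+e^{2w})`. -/
noncomputable def Rf (p : Fin 3 → ℝ) : ℝ := √(p 0 ^ 2 + Real.exp (2 * p 2))

noncomputable def F (p : Fin 3 → ℝ) : Fin 3 → ℝ :=
  ![(1 + Rf p) * Real.cos (p 1), (1 + Rf p) * Real.sin (p 1), Real.arsinh (p 0 * Real.exp (-p 2))]

lemma Rf_pos (p : Fin 3 → ℝ) : 0 < Rf p := by
  unfold Rf; apply Real.sqrt_pos.2; positivity

lemma Rf_sq (p : Fin 3 → ℝ) : Rf p ^ 2 = p 0 ^ 2 + Real.exp (2 * p 2) := by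
  unfold Rf; apply Real.sq_sqrt; positivity

lemma contDiff_Rf : ContDiff ℝ 1 Rf := by
  unfold Rf
  apply ContDiff.sqrt
  · fun_prop
  · intro p; positivity

lemma contDiff_F : ContDiff ℝ 1 F := by
  have hR := contDiff_Rf
  rw [contDiff_pi]
  intro i
  fin_cases i
  · simp only [F, Fin.zero_eta, Matrix.cons_val_zero]
    fun_prop
  · simp only [F, Fin.mk_one, Matrix.cons_val_one, Matrix.cons_val_zero]
    fun_prop
  · simp only [F, Fin.reduceFinMk, Matrix.cons_val]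
    exact Real.contDiff_arsinh.comp (by fun_prop)

/-- The Jacobian matrix. -/
noncomputable def JM (p : Fin 3 → ℝ) : Matrix (Fin 3) (Fin 3) ℝ :=
  let t := p 0 / Rf p
  let q := Real.exp (2 * p 2) / Rf p
  !![t * cos (p 1), -((1 + Rf p) * sin (p 1)), q * cos (p 1);
     t * sin (p 1), (1 + Rf p) * cos (p 1), q * sin (p 1);
     1 / Rf p, 0, -t]


abbrev P (i : Fin 3) : (Fin 3 → ℝ) →L[ℝ] ℝ := ContinuousLinearMap.proj (R := ℝ) (φ := fun _ : Fin 3 => ℝ) i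

lemma hasFDerivAt_Rf (p : Fin 3 → ℝ) :
    HasFDerivAt Rf ((p 0 / Rf p) • (P 0) + (Real.exp (2 * p 2) / Rf p) • (P 2)) p := by
  have h0 : HasFDerivAt (fun p : Fin 3 → ℝ => p 0) (P 0) p := hasFDerivAt_apply 0 p
  have h2 : HasFDerivAt (fun p : Fin 3 → ℝ => p 2) (P 2) p := hasFDerivAt_apply 2 p
  have hne : p 0 ^ 2 + Real.exp (2 * p 2) ≠ 0 := by positivity
  have h := ((h0.pow 2).add ((h2.const_mul 2).exp)).sqrt hne
  have hR := Rf_pos p
  refine h.congr_fderiv ?_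
  ext v
  simp only [Rf] at hR ⊢
  simp
  field_simp

lemma hasFDerivAt_third (p : Fin 3 → ℝ) :
    HasFDerivAt (fun p : Fin 3 → ℝ => Real.arsinh (p 0 * Real.exp (-p 2)))
      ((1 / Rf p) • (P 0) - (p 0 / Rf p) • (P 2)) p := by
  have h0 : HasFDerivAt (fun p : Fin 3 → ℝ => p 0) (P 0) p := hasFDerivAt_apply 0 p
  have h2 : HasFDerivAt (fun p : Fin 3 → ℝ => p 2) (P 2) p := hasFDerivAt_apply 2 p
  have h := (Real.hasDerivAt_arsinh (p 0 * Real.exp (-p 2))).comp_hasFDerivAt p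
    (h0.mul ((h2.neg).exp))
  have hR := Rf_pos p
  have hs : √(1 + (p 0 * Real.exp (-p 2)) ^ 2) = Rf p * Real.exp (-p 2) := by
    rw [Real.sqrt_eq_iff_mul_self_eq_of_pos (by positivity)]
    have h2 : Real.exp (2 * p 2) * Real.exp (-p 2) ^ 2 = 1 := by
      rw [← Real.exp_nat_mul, ← Real.exp_add]; simp
    have := Rf_sq p
    calc _ = Rf p ^ 2 * Real.exp (-p 2) ^ 2 := by ring
      _ = (p 0 ^ 2 + Real.exp (2 * p 2)) * Real.exp (-p 2) ^ 2 := by rw [this]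
      _ = _ := by linear_combination h2
  refine h.congr_fderiv ?_
  rw [hs]
  have he := Real.exp_pos (-p 2)
  ext v
  simp
  field_simp
  ring

lemma hasFDerivAt_F (p : Fin 3 → ℝ) :
    HasFDerivAt F (LinearMap.toContinuousLinearMap (Matrix.toLin' (JM p))) p := by
  have h1 : HasFDerivAt (fun p : Fin 3 → ℝ => p 1) (P 1) p := hasFDerivAt_apply 1 p
  have hR := (hasFDerivAt_Rf p).const_add 1
  rw [hasFDerivAt_pi']
  intro i
  fin_cases i
  · refine (hR.mul h1.cos).congr_fderiv ?_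
    ext v
    simp [JM, Matrix.toLin'_apply, dotProduct, Fin.sum_univ_three]
    ring
  · refine (hR.mul h1.sin).congr_fderiv ?_
    ext v
    simp [JM, Matrix.toLin'_apply, dotProduct, Fin.sum_univ_three]
    ring
  · refine (hasFDerivAt_third p).congr_fderiv ?_
    ext v
    simp [JM, Matrix.toLin'_apply, dotProduct, Fin.sum_univ_three]
    ring


lemma toMatrix_fderiv (p : Fin 3 → ℝ) :
    LinearMap.toMatrix' ((fderiv ℝ F p : (Fin 3 → ℝ) →L[ℝ] (Fin 3 → ℝ)) :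
          (Fin 3 → ℝ) →ₗ[ℝ] (Fin 3 → ℝ)) = JM p := by
  rw [(hasFDerivAt_F p).fderiv]
  simp

lemma quot_sq (p : Fin 3 → ℝ) : (p 0 / Rf p) ^ 2 + (Real.exp (2 * p 2) / Rf p) * (1 / Rf p) = 1 := by
  have hR := Rf_pos p
  have := Rf_sq p
  field_simp
  linarith

lemma det_JM (p : Fin 3 → ℝ) : (JM p).det = -(1 + Rf p) := by
  have h1 := quot_sq p
  have h2 := Real.sin_sq_add_cos_sq (p 1)
  rw [Matrix.det_fin_three]
  simp only [JM, Matrix.of_apply, Matrix.cons_val', Matrix.cons_val_zero, Matrix.cons_val_one, Matrix.cons_val]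
  linear_combination (-(1 + Rf p)) * ((p 0 / Rf p) ^ 2 + (Real.exp (2 * p 2) / Rf p) * (1 / Rf p)) * h2 - (1 + Rf p) * h1

lemma charpoly_JM (p : Fin 3 → ℝ) (z : ℂ) :
    Polynomial.aeval z (JM p).charpoly =
      z ^ 3 - ((Real.cos (p 1) * (p 0 / Rf p + 1 + Rf p) - p 0 / Rf p : ℝ) : ℂ) * z ^ 2
        + (((1 + Rf p) * (p 0 / Rf p) * (1 - Real.cos (p 1)) - Real.cos (p 1) : ℝ) : ℂ) * z
        + ((1 + Rf p : ℝ) : ℂ) := by
  rw [Polynomial.aeval_def, ← Polynomial.eval_map, ← Matrix.charpoly_map, Matrix.eval_charpoly,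
    Matrix.det_fin_three]
  have h1 : ((p 0 : ℂ) / (Rf p : ℂ)) ^ 2 + (Complex.exp (2 * (p 2 : ℂ)) / (Rf p : ℂ)) * (1 / (Rf p : ℂ)) = 1 := by
    have := quot_sq p
    exact_mod_cast congrArg (fun r : ℝ => (r : ℂ)) this
  have h2 := Complex.sin_sq_add_cos_sq (p 1 : ℂ)
  simp [JM, Matrix.scalar_apply]
  rw [one_div] at h1
  set T := (p 0 : ℂ) / (Rf p : ℂ) with hT
  set E := Complex.exp (2 * (p 2 : ℂ)) / (Rf p : ℂ) with hE
  set R := (Rf p : ℂ) with hRdef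
  set C := Complex.cos (p 1 : ℂ) with hC
  set S := Complex.sin (p 1 : ℂ) with hS
  linear_combination (-C * z) * h1 + (1 + R) * T * z * h2 + (1 + R) * (T ^ 2 + E * R⁻¹) * h2 + (1 + R) * h1

lemma abs_quot_le (p : Fin 3 → ℝ) : |p 0 / Rf p| ≤ 1 := by
  have h1 := quot_sq p
  have hR := Rf_pos p
  have : 0 ≤ (Real.exp (2 * p 2) / Rf p) * (1 / Rf p) := by positivity
  rw [← sq_le_one_iff_abs_le_one]
  linarith

lemma eig_lower (p : Fin 3 → ℝ) (z : ℂ) (hz : Polynomial.aeval z (JM p).charpoly = 0) :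
    (1 / 4 : ℝ) ≤ ‖z‖ := by
  by_contra hlt
  push Not at hlt
  rw [charpoly_JM] at hz
  have hR := Rf_pos p
  have ht := abs_quot_le p
  have hc := Real.abs_cos_le_one (p 1)
  set t := p 0 / Rf p with ht_def
  set c := Real.cos (p 1) with hc_def
  have hA : |c * (t + 1 + Rf p) - t| ≤ 3 * (1 + Rf p) := by
    have h1 : |c * (t + 1 + Rf p)| ≤ 1 * (1 + 1 + Rf p) := by
      rw [abs_mul]
      apply mul_le_mul hc _ (abs_nonneg _) zero_le_one
      rw [abs_le] at ht ⊢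
      constructor <;> linarith
    calc _ ≤ |c * (t + 1 + Rf p)| + |t| := abs_sub _ _
      _ ≤ 1 * (1 + 1 + Rf p) + 1 := add_le_add h1 ht
      _ ≤ _ := by linarith
  have hB : |(1 + Rf p) * t * (1 - c) - c| ≤ 3 * (1 + Rf p) := by
    have h1 : |(1 + Rf p) * t * (1 - c)| ≤ (1 + Rf p) * 1 * 2 := by
      rw [abs_mul, abs_mul, abs_of_pos (show 0 < 1 + Rf p by linarith)]
      apply mul_le_mul _ _ (abs_nonneg _) (by positivity)
      · exact mul_le_mul_of_nonneg_left ht (by positivity)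
      · rw [abs_le] at hc ⊢
        constructor <;> linarith
    calc _ ≤ |(1 + Rf p) * t * (1 - c)| + |c| := abs_sub _ _
      _ ≤ (1 + Rf p) * 1 * 2 + 1 := add_le_add h1 hc
      _ ≤ _ := by linarith
  have hkey : ((1 + Rf p : ℝ) : ℂ) = -(z ^ 3 - ((c * (t + 1 + Rf p) - t : ℝ) : ℂ) * z ^ 2
        + (((1 + Rf p) * t * (1 - c) - c : ℝ) : ℂ) * z) := by
    linear_combination hz
  have hn := congrArg norm hkey
  rw [norm_neg, Complex.norm_real, Real.norm_of_nonneg (by positivity)] at hn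
  have h3 : ‖z ^ 3 - ((c * (t + 1 + Rf p) - t : ℝ) : ℂ) * z ^ 2
        + (((1 + Rf p) * t * (1 - c) - c : ℝ) : ℂ) * z‖ ≤ ‖z‖ ^ 3 + 3 * (1 + Rf p) * ‖z‖ ^ 2 + 3 * (1 + Rf p) * ‖z‖ := by
    refine (norm_add_le _ _).trans ?_
    refine add_le_add ((norm_sub_le _ _).trans ?_) ?_
    · refine add_le_add (by rw [norm_pow]) ?_
      rw [norm_mul, norm_pow, Complex.norm_real, Real.norm_eq_abs]
      exact mul_le_mul_of_nonneg_right hA (by positivity)
    · rw [norm_mul, Complex.norm_real, Real.norm_eq_abs]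
      exact mul_le_mul_of_nonneg_right hB (by positivity)
  have hz0 := norm_nonneg z
  have e2 : ‖z‖ ^ 2 ≤ 1 / 16 := by nlinarith
  have e3 : ‖z‖ ^ 3 ≤ 1 / 64 := by
    calc ‖z‖ ^ 3 = ‖z‖ ^ 2 * ‖z‖ := by ring
      _ ≤ 1 / 16 * (1 / 4) := mul_le_mul e2 hlt.le hz0 (by norm_num)
      _ = 1 / 64 := by norm_num
  have e4 : 3 * (1 + Rf p) * ‖z‖ ^ 2 ≤ 3 * (1 + Rf p) * (1 / 16) := mul_le_mul_of_nonneg_left e2 (by positivity)
  have e5 : 3 * (1 + Rf p) * ‖z‖ ≤ 3 * (1 + Rf p) * (1 / 4) := mul_le_mul_of_nonneg_left hlt.le (by positivity)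
  linarith

lemma not_injective_F : ¬ Function.Injective F := by
  intro h
  have h1 : F ![0, 0, 0] = F ![0, 2 * π, 0] := by
    simp [F, Rf]
  have h2 := h h1
  have h3 := congrFun h2 1
  simp at h3

end Run7.h81.Cham
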