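import Mathlib

set_option autoImplicit false

namespace Run7.h81.Crit4

open Finset

variable {V : Type*} [Fintype V] [DecidableEq V]

/-- The recolouring lemma. -/
theorem recolour (G : SimpleGraph V) [DecidableRel G.Adj] (A B : Finset V) (t : ℕ)
    (hA : ∀ x ∈ A, ∀ y ∈ A, ¬ G.Adj x y)
    (hB : ∀ x ∈ B, ∀ y ∈ B, ¬ G.Adj x y)
    (hAB : Disjoint A B)
    (hAt : ∀ a ∈ A, (B.filter (fun b => ¬ G.Adj a b)).card ≤ t)
    (hBt : ∀ b ∈ B, (A.filter (fun a => ¬ G.Adj a b)).card ≤ t)
    (hAc : 3 * t + 4 ≤ A.card) (hBc : 3 * t + 4 ≤ B.card)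
    (hG : ¬ G.Colorable 3) (a b : V) (ha : a ∈ A) (hb : b ∈ B)
    (hab : G.Adj a b)
    (hcol : (G.deleteEdges {s(a, b)}).Colorable 3) :
    ∃ x, x ∉ A ∧ x ∉ B ∧ G.Adj x a ∧ ∀ a' ∈ A, G.Adj x a' → G.Adj a' b → a' = a := by
  classical
  obtain ⟨φ⟩ := hcol
  have hφ : ∀ x y, G.Adj x y → s(x, y) ≠ s(a, b) → φ x ≠ φ y := by
    intro x y hxy hne
    apply φ.valid
    rw [SimpleGraph.deleteEdges_adj]
    exact ⟨hxy, by simpa using hne⟩
  have hne : a ≠ b := hab.ne
  -- a and b have the same colour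
  have hsame : φ a = φ b := by
    by_contra hcon
    apply hG
    refine ⟨SimpleGraph.Coloring.mk (fun x => φ x) ?_⟩
    intro x y hxy
    by_cases h : s(x, y) = s(a, b)
    · rw [Sym2.eq_iff] at h
      rcases h with ⟨rfl, rfl⟩ | ⟨rfl, rfl⟩
      · exact hcon
      · exact fun h => hcon h.symm
    · exact hφ x y hxy h
  -- colour classes
  have hclsB : ∀ d : Fin 3, ∀ a' ∈ A, φ a' = d → (B.filter (fun y => φ y = d)).card ≤ t + 1 := by
    intro d a' ha' hd
    have hsub : B.filter (fun y => φ y = d) ⊆ insert b (B.filter (fun y => ¬ G.Adj a' y)) := by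
      intro y hy
      rw [Finset.mem_filter] at hy
      rw [Finset.mem_insert, Finset.mem_filter]
      by_cases hyb : y = b
      · exact Or.inl hyb
      · right
        refine ⟨hy.1, fun hadj => ?_⟩
        refine hφ a' y hadj ?_ (by rw [hd, hy.2])
        intro h
        rw [Sym2.eq_iff] at h
        rcases h with ⟨_, h2⟩ | ⟨h1, _⟩
        · exact hyb h2
        · exact (Finset.disjoint_left.mp hAB ha') (h1 ▸ hb)
    calc (B.filter (fun y => φ y = d)).card ≤ (insert b (B.filter (fun y => ¬ G.Adj a' y))).card :=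
          Finset.card_le_card hsub
      _ ≤ (B.filter (fun y => ¬ G.Adj a' y)).card + 1 := Finset.card_insert_le _ _
      _ ≤ t + 1 := Nat.add_le_add_right (hAt a' ha') 1
  have hclsA : ∀ d : Fin 3, ∀ b' ∈ B, φ b' = d → (A.filter (fun y => φ y = d)).card ≤ t + 1 := by
    intro d b' hb' hd
    have hsub : A.filter (fun y => φ y = d) ⊆ insert a (A.filter (fun y => ¬ G.Adj y b')) := by
      intro y hy
      rw [Finset.mem_filter] at hy
      rw [Finset.mem_insert, Finset.mem_filter]
      by_cases hyb : y = a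
      · exact Or.inl hyb
      · right
        refine ⟨hy.1, fun hadj => ?_⟩
        refine hφ y b' hadj ?_ (by rw [hd, hy.2])
        intro h
        rw [Sym2.eq_iff] at h
        rcases h with ⟨h1, _⟩ | ⟨_, h2⟩
        · exact hyb h1
        · exact (Finset.disjoint_left.mp hAB ha) (h2 ▸ hb')
    calc (A.filter (fun y => φ y = d)).card ≤ (insert a (A.filter (fun y => ¬ G.Adj y b'))).card :=
          Finset.card_le_card hsub
      _ ≤ (A.filter (fun y => ¬ G.Adj y b')).card + 1 := Finset.card_insert_le _ _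
      _ ≤ t + 1 := Nat.add_le_add_right (hBt b' hb') 1
  have hcardA : A.card = ∑ d : Fin 3, (A.filter (fun y => φ y = d)).card := by
    rw [Finset.card_eq_sum_card_fiberwise (f := fun y => φ y) (t := Finset.univ)]
    intro x _; simp
  have hcardB : B.card = ∑ d : Fin 3, (B.filter (fun y => φ y = d)).card := by
    rw [Finset.card_eq_sum_card_fiberwise (f := fun y => φ y) (t := Finset.univ)]
    intro x _; simp
  set c := φ a with hc
  have hAcc : (A.filter (fun y => φ y = c)).card ≤ t + 1 := hclsA c b hb hsame.symm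
  have hBcc : (B.filter (fun y => φ y = c)).card ≤ t + 1 := hclsB c a ha hc.symm
  -- a colour d ≠ c with many vertices in A
  obtain ⟨d, hdc, hdA⟩ : ∃ d : Fin 3, d ≠ c ∧ t + 2 ≤ (A.filter (fun y => φ y = d)).card := by
    by_contra hcon
    push Not at hcon
    have hall : ∀ d : Fin 3, (A.filter (fun y => φ y = d)).card ≤ t + 1 := by
      intro d
      by_cases h : d = c
      · rw [h]; exact hAcc
      · have := hcon d h; omega
    have : A.card ≤ 3 * (t + 1) := by
      rw [hcardA, Fin.sum_univ_three]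
      have h0 := hall 0
      have h1 := hall 1
      have h2 := hall 2
      omega
    omega
  have hBd : ∀ b' ∈ B, φ b' ≠ d := by
    intro b' hb' h
    have := hclsA d b' hb' h
    omega
  -- the vertices of A only have colours c and d
  have hAd : ∀ a' ∈ A, φ a' = c ∨ φ a' = d := by
    intro a' ha'
    by_contra hcon
    push Not at hcon
    obtain ⟨h1, h2⟩ := hcon
    have h3 : (B.filter (fun y => φ y = φ a')).card ≤ t + 1 := hclsB _ a' ha' rfl
    have h4 : (B.filter (fun y => φ y = d)).card = 0 := by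
      rw [Finset.card_eq_zero, Finset.filter_eq_empty_iff]
      intro y hy; exact hBd y hy
    have h5 : ∀ e : Fin 3, e = c ∨ e = d ∨ e = φ a' := by
      intro e
      have e1 := hdc
      revert h1 h2 e1
      generalize φ a' = z
      generalize c = z'
      intro h1 h2 e1
      omega
    have h6 : ∀ e : Fin 3, (B.filter (fun y => φ y = e)).card ≤ t + 1 := by
      intro e
      rcases h5 e with h | h | h
      · rw [h]; exact hBcc
      · rw [h, h4]; omega
      · rw [h]; exact h3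
    have : B.card ≤ 3 * (t + 1) := by
      rw [hcardB, Fin.sum_univ_three]
      have h0 := h6 0
      have h1 := h6 1
      have h2 := h6 2
      omega
    omega
  -- recolour a by d
  obtain ⟨x, hxa, hxd⟩ : ∃ x, G.Adj x a ∧ φ x = d := by
    by_contra hcon
    push Not at hcon
    apply hG
    refine ⟨SimpleGraph.Coloring.mk (fun x => if x = a then d else φ x) ?_⟩
    intro x y hxy
    by_cases hx : x = a
    · subst hx
      have hy : y ≠ x := hxy.ne.symm
      simp only [if_true, if_neg hy]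
      intro h
      exact hcon y hxy.symm h.symm
    · by_cases hy : y = a
      · subst hy
        simp only [if_true, if_neg hx]
        exact hcon x hxy
      · simp only [if_neg hx, if_neg hy]
        apply hφ x y hxy
        intro h
        rw [Sym2.eq_iff] at h
        rcases h with ⟨h1, _⟩ | ⟨_, h2⟩
        · exact hx h1
        · exact hy h2
  refine ⟨x, ?_, ?_, hxa, ?_⟩
  · intro hxA
    exact hA x hxA a ha hxa
  · intro hxB
    exact hBd x hxB hxd
  · intro a' ha' hxa' ha'b
    by_contra hne'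
    -- a' has colour c
    have hxb : x ≠ b := by
      rintro rfl
      exact hBd x hb hxd
    have hxa2 : x ≠ a := hxa.ne
    have h1 : φ a' ≠ d := by
      intro h
      refine hφ x a' hxa' ?_ (by rw [hxd, h])
      intro h'
      rw [Sym2.eq_iff] at h'
      rcases h' with ⟨h1, _⟩ | ⟨h1, _⟩
      · exact hxa2 h1
      · exact hxb h1
    have h2 : φ a' = c := (hAd a' ha').resolve_right h1
    refine hφ a' b ha'b ?_ (by rw [h2, hsame])
    intro h'
    rw [Sym2.eq_iff] at h'
    rcases h' with ⟨h1, _⟩ | ⟨h1, _⟩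
    · exact hne' h1
    · exact (Finset.disjoint_left.mp hAB ha') (h1 ▸ hb)

/-- Counting: the number of edges between `A` and `B` is at most `|W| |B|`. -/
theorem count (G : SimpleGraph V) [DecidableRel G.Adj] (A B : Finset V) (t : ℕ)
    (hA : ∀ x ∈ A, ∀ y ∈ A, ¬ G.Adj x y)
    (hB : ∀ x ∈ B, ∀ y ∈ B, ¬ G.Adj x y)
    (hAB : Disjoint A B)
    (hAt : ∀ a ∈ A, (B.filter (fun b => ¬ G.Adj a b)).card ≤ t)
    (hBt : ∀ b ∈ B, (A.filter (fun a => ¬ G.Adj a b)).card ≤ t)
    (hAc : 3 * t + 4 ≤ A.card) (hBc : 3 * t + 4 ≤ B.card)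
    (hG : ¬ G.Colorable 3)
    (hcol : ∀ e ∈ G.edgeSet, (G.deleteEdges {e}).Colorable 3) :
    ((A ×ˢ B).filter (fun p => G.Adj p.1 p.2)).card ≤ ((A ∪ B)ᶜ).card * B.card := by
  classical
  have key : ∀ p : V × V, ∃ x, p.1 ∈ A → p.2 ∈ B → G.Adj p.1 p.2 →
      x ∉ A ∧ x ∉ B ∧ G.Adj x p.1 ∧ ∀ a' ∈ A, G.Adj x a' → G.Adj a' p.2 → a' = p.1 := by
    intro p
    by_cases h : p.1 ∈ A ∧ p.2 ∈ B ∧ G.Adj p.1 p.2
    · obtain ⟨x, hx⟩ := recolour G A B t hA hB hAB hAt hBt hAc hBc hG p.1 p.2 h.1 h.2.1 h.2.2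
        (hcol _ (by rw [SimpleGraph.mem_edgeSet]; exact h.2.2))
      exact ⟨x, fun _ _ _ => hx⟩
    · exact ⟨p.1, fun h1 h2 h3 => absurd ⟨h1, h2, h3⟩ h⟩
  choose f hf using key
  rw [← Finset.card_product]
  apply Finset.card_le_card_of_injOn (fun p => (f p, p.2))
  · intro p hp
    rw [Finset.mem_coe, Finset.mem_filter, Finset.mem_product] at hp
    obtain ⟨⟨h1, h2⟩, h3⟩ := hp
    obtain ⟨g1, g2, g3, g4⟩ := hf p h1 h2 h3
    simp only [Finset.coe_product, Set.mem_prod, Finset.mem_coe, Finset.mem_compl,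
      Finset.mem_union, not_or]
    exact ⟨⟨g1, g2⟩, h2⟩
  · intro p hp q hq hpq
    rw [Finset.mem_coe, Finset.mem_filter, Finset.mem_product] at hp hq
    obtain ⟨⟨h1, h2⟩, h3⟩ := hp
    obtain ⟨⟨k1, k2⟩, k3⟩ := hq
    obtain ⟨g1, g2, g3, g4⟩ := hf p h1 h2 h3
    obtain ⟨l1, l2, l3, l4⟩ := hf q k1 k2 k3
    simp only [Prod.mk.injEq] at hpq
    obtain ⟨e1, e2⟩ := hpq
    have : q.1 = p.1 := g4 q.1 k1 (e1 ▸ l3) (e2 ▸ k3)
    exact Prod.ext this.symm e2

end Run7.h81.Crit4
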