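import Mathlib
import Pool.Agent.Run7.h81.Crit4

set_option autoImplicit false

namespace Run7.h81.Crit4

open Finset

variable {V : Type*} [Fintype V] [DecidableEq V]

/-- An edge with large degree sum. -/
theorem exists_edge (G : SimpleGraph V) [DecidableRel G.Adj] (h : 0 < G.edgeFinset.card) :
    ∃ u v, G.Adj u v ∧ 4 * G.edgeFinset.card ≤ Fintype.card V * (G.degree u + G.degree v) := by
  classical
  set m := G.edgeFinset.card with hm
  have hdeg : ∑ v, G.degree v = 2 * m := G.sum_degrees_eq_twice_card_edges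
  have hsq : (∑ v, G.degree v) ^ 2 ≤ Fintype.card V * ∑ v, G.degree v ^ 2 := by
    have := sq_sum_le_card_mul_sum_sq (s := (Finset.univ : Finset V)) (f := fun v => (G.degree v))
    simpa using this
  let s : Finset (Σ _ : V, V) := Finset.univ.sigma (fun u => G.neighborFinset u)
  have hscard : s.card = 2 * m := by
    rw [Finset.card_sigma]
    simpa using hdeg
  have hsne : s.Nonempty := by
    rw [← Finset.card_pos, hscard]; omega
  have hsumg : ∑ p ∈ s, Fintype.card V * (G.degree p.1 + G.degree p.2)
      = 2 * (Fintype.card V * ∑ v, G.degree v ^ 2) := by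
    rw [Finset.sum_sigma]
    have h1 : ∀ u : V, ∑ v ∈ G.neighborFinset u, Fintype.card V * (G.degree u + G.degree v)
        = Fintype.card V * (G.degree u ^ 2) + Fintype.card V * ∑ v ∈ G.neighborFinset u, G.degree v := by
      intro u
      rw [← Finset.mul_sum, Finset.sum_add_distrib, Finset.sum_const, G.card_neighborFinset_eq_degree]
      ring
    simp only [h1]
    rw [Finset.sum_add_distrib, ← Finset.mul_sum, ← Finset.mul_sum]
    have h2 : ∑ u : V, ∑ v ∈ G.neighborFinset u, G.degree v = ∑ v, G.degree v ^ 2 := by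
      rw [Finset.sum_comm' (t' := Finset.univ) (s' := fun v => G.neighborFinset v)]
      · apply Finset.sum_congr rfl
        intro v _
        rw [Finset.sum_const, G.card_neighborFinset_eq_degree]
        simp [sq]
      · intro x y
        simp [G.adj_comm]
    rw [h2]; ring
  have hsumf : ∑ _p ∈ s, 4 * m = 8 * m ^ 2 := by
    rw [Finset.sum_const, hscard]; simp; ring
  have hle : ∑ _p ∈ s, 4 * m ≤ ∑ p ∈ s, Fintype.card V * (G.degree p.1 + G.degree p.2) := by
    rw [hsumf, hsumg]
    rw [hdeg] at hsq
    nlinarith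
  obtain ⟨p, hp, hpl⟩ := Finset.exists_le_of_sum_le hsne hle
  refine ⟨p.1, p.2, ?_, hpl⟩
  rw [Finset.mem_sigma] at hp
  simpa using hp.2

theorem no_tri (G : SimpleGraph V) (h : G.CliqueFree 3) {x y z : V} (h1 : G.Adj x y)
    (h2 : G.Adj x z) (h3 : G.Adj y z) : False := by
  classical
  exact h {x, y, z} (SimpleGraph.is3Clique_triple_iff.mpr ⟨h1, h2, h3⟩)

/-- Real arithmetic at the end. -/
theorem arith (n a b a0 b0 q e m : ℝ) (hn : 1000 ≤ n)
    (h1 : (1/4 - 1/2000) * n ^ 2 < m)
    (h2 : 4 * m ≤ n * (a + b)) (h3 : a + b ≤ n)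
    (h4 : m ≤ e + n * (n - a - b)) (h5 : q = a * b - e)
    (h6 : (a - a0) * n ≤ 20 * q) (h7 : (b - b0) * n ≤ 20 * q)
    (ha0 : a0 ≤ a) (hb0 : b0 ≤ b) :
    (39/100) * n ≤ a0 ∧ (39/100) * n ≤ b0 ∧ (n - a0 - b0) * b0 < a0 * b0 - q := by
  have hn0 : 0 < n := by linarith
  have hab : (1 - 4 * (1/2000)) * n ≤ a + b := by
    by_contra hcon
    push Not at hcon
    nlinarith
  have he : (1/4 - 5 * (1/2000)) * n ^ 2 ≤ e := by nlinarith
  have hprod : a * b ≤ n ^ 2 / 4 := by nlinarith [sq_nonneg (a - b)]
  have hq : q ≤ 5 * (1/2000) * n ^ 2 := by nlinarith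
  have hqa : a - a0 ≤ (1/20) * n := by
    by_contra hcon
    push Not at hcon
    nlinarith
  have hqb : b - b0 ≤ (1/20) * n := by
    by_contra hcon
    push Not at hcon
    nlinarith
  have hq0 : 0 ≤ q := by nlinarith
  have hdiff : (a - b) ^ 2 ≤ (1/100) * n ^ 2 := by nlinarith
  have hd2 : |a - b| ≤ (1/10) * n := by
    apply abs_le_of_sq_le_sq _ (by positivity)
    nlinarith
  rw [abs_le] at hd2
  have ha : (449/1000) * n ≤ a := by linarith [hd2.1, hd2.2]
  have hb : (449/1000) * n ≤ b := by linarith [hd2.1, hd2.2]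
  have ha0' : (39/100) * n ≤ a0 := by linarith
  have hb0' : (39/100) * n ≤ b0 := by linarith
  refine ⟨ha0', hb0', ?_⟩
  have hW : (28/100) * n ≤ a0 - (n - a0 - b0) := by linarith
  nlinarith [mul_le_mul hW hb0' (by positivity) (by linarith)]

theorem main :
    ∃ c : ℝ, c < 1 / 4 ∧ ∃ N : ℕ, ∀ n : ℕ, N ≤ n → ∀ G : SimpleGraph (Fin n),
      G.CliqueFree 3 → G.chromaticNumber = 4 →
      (∀ e ∈ G.edgeSet, (G.deleteEdges {e}).Colorable 3) →
      (G.edgeSet.ncard : ℝ) ≤ c * (n : ℝ) ^ 2 := by
  classical
  refine ⟨1/4 - 1/2000, by norm_num, 1000, ?_⟩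
  intro n hn G hfree hchi hcrit
  by_contra hcon
  push Not at hcon
  have hG : ¬ G.Colorable 3 := by
    intro h
    have := SimpleGraph.Colorable.chromaticNumber_le h
    rw [hchi] at this
    exact absurd this (by decide)
  set m := G.edgeFinset.card with hm
  have hmcard : G.edgeSet.ncard = m := by
    rw [hm, ← SimpleGraph.coe_edgeFinset, Set.ncard_coe_finset]
  rw [hmcard] at hcon
  have hnR : (1000 : ℝ) ≤ n := by exact_mod_cast hn
  have hmpos : 0 < m := by
    rcases Nat.eq_zero_or_pos m with h | h
    · rw [h] at hcon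
      norm_num at hcon
      nlinarith
    · exact h
  obtain ⟨u, v, huv, hdeg⟩ := exists_edge G hmpos
  rw [Fintype.card_fin, ← hm] at hdeg
  set A := G.neighborFinset u with hA
  set B := G.neighborFinset v with hB
  have hAi : ∀ x ∈ A, ∀ y ∈ A, ¬ G.Adj x y := by
    intro x hx y hy hxy
    rw [hA, SimpleGraph.mem_neighborFinset] at hx hy
    exact no_tri G hfree hx hy hxy
  have hBi : ∀ x ∈ B, ∀ y ∈ B, ¬ G.Adj x y := by
    intro x hx y hy hxy
    rw [hB, SimpleGraph.mem_neighborFinset] at hx hy
    exact no_tri G hfree hx hy hxy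
  have hdisj : Disjoint A B := by
    rw [Finset.disjoint_left]
    intro x hx hy
    rw [hA, SimpleGraph.mem_neighborFinset] at hx
    rw [hB, SimpleGraph.mem_neighborFinset] at hy
    exact no_tri G hfree huv hx hy
  have hcA : A.card = G.degree u := G.card_neighborFinset_eq_degree u
  have hcB : B.card = G.degree v := G.card_neighborFinset_eq_degree v
  rw [← hcA, ← hcB] at hdeg
  set R := (A ∪ B)ᶜ with hR
  have hRc : R.card + (A.card + B.card) = n := by
    have h1 := Finset.card_compl_add_card (A ∪ B)
    rw [Finset.card_union_of_disjoint hdisj, Fintype.card_fin] at h1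
    exact h1
  -- edges between A and B
  set EAB := (A ×ˢ B).filter (fun p => G.Adj p.1 p.2) with hEAB
  set NAB := (A ×ˢ B).filter (fun p => ¬ G.Adj p.1 p.2) with hNAB
  have hsplit : EAB.card + NAB.card = A.card * B.card := by
    rw [hEAB, hNAB, Finset.card_filter_add_card_filter_not, Finset.card_product]
  -- degree sums
  have hdegsum : ∑ x, G.degree x = 2 * m := G.sum_degrees_eq_twice_card_edges
  have hEA : ∑ x ∈ A, (B.filter (fun y => G.Adj x y)).card = EAB.card := by
    rw [hEAB, Finset.card_filter, Finset.sum_product]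
    exact Finset.sum_congr rfl (fun x _ => Finset.card_filter _ _)
  have hEB : ∑ y ∈ B, (A.filter (fun x => G.Adj x y)).card = EAB.card := by
    rw [hEAB, Finset.card_filter, Finset.sum_product_right]
    exact Finset.sum_congr rfl (fun x _ => Finset.card_filter _ _)
  have hNA : ∑ x ∈ A, (B.filter (fun y => ¬ G.Adj x y)).card = NAB.card := by
    rw [hNAB, Finset.card_filter, Finset.sum_product]
    exact Finset.sum_congr rfl (fun x _ => Finset.card_filter _ _)
  have hNB : ∑ y ∈ B, (A.filter (fun x => ¬ G.Adj x y)).card = NAB.card := by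
    rw [hNAB, Finset.card_filter, Finset.sum_product_right]
    exact Finset.sum_congr rfl (fun x _ => Finset.card_filter _ _)
  have hdA : ∀ x ∈ A, G.degree x ≤ (B.filter (fun y => G.Adj x y)).card + R.card := by
    intro x hx
    rw [← G.card_neighborFinset_eq_degree x]
    refine le_trans (Finset.card_le_card (t := B.filter (fun y => G.Adj x y) ∪ R) ?_)
      (Finset.card_union_le _ _)
    intro y hy
    rw [SimpleGraph.mem_neighborFinset] at hy
    rw [Finset.mem_union, Finset.mem_filter, hR, Finset.mem_compl, Finset.mem_union]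
    by_cases h1 : y ∈ B
    · exact Or.inl ⟨h1, hy⟩
    · right
      rintro (h2 | h2)
      · exact hAi x hx y h2 hy
      · exact h1 h2
  have hdB : ∀ y ∈ B, G.degree y ≤ (A.filter (fun x => G.Adj x y)).card + R.card := by
    intro x hx
    rw [← G.card_neighborFinset_eq_degree x]
    refine le_trans (Finset.card_le_card (t := A.filter (fun y => G.Adj y x) ∪ R) ?_)
      (Finset.card_union_le _ _)
    intro y hy
    rw [SimpleGraph.mem_neighborFinset] at hy
    rw [Finset.mem_union, Finset.mem_filter, hR, Finset.mem_compl, Finset.mem_union]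
    by_cases h1 : y ∈ A
    · exact Or.inl ⟨h1, hy.symm⟩
    · right
      rintro (h2 | h2)
      · exact h1 h2
      · exact hBi x hx y h2 hy
  have hdR : ∀ x ∈ R, G.degree x ≤ n := by
    intro x _
    have := G.degree_lt_card_verts x
    rw [Fintype.card_fin] at this
    exact this.le
  have hedges : 2 * m ≤ 2 * EAB.card + 2 * (n * R.card) := by
    rw [← hdegsum]
    have h1 : ∑ x, G.degree x = (∑ x ∈ A, G.degree x + ∑ x ∈ B, G.degree x) + ∑ x ∈ R, G.degree x := by
      rw [← Finset.sum_union hdisj, hR, Finset.sum_add_sum_compl]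
    have h2 : ∑ x ∈ A, G.degree x ≤ EAB.card + A.card * R.card := by
      calc ∑ x ∈ A, G.degree x ≤ ∑ x ∈ A, ((B.filter (fun y => G.Adj x y)).card + R.card) :=
            Finset.sum_le_sum hdA
        _ = EAB.card + A.card * R.card := by
            rw [Finset.sum_add_distrib, hEA, Finset.sum_const, smul_eq_mul]
    have h3 : ∑ x ∈ B, G.degree x ≤ EAB.card + B.card * R.card := by
      calc ∑ x ∈ B, G.degree x ≤ ∑ x ∈ B, ((A.filter (fun y => G.Adj y x)).card + R.card) :=
            Finset.sum_le_sum hdB
        _ = EAB.card + B.card * R.card := by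
            rw [Finset.sum_add_distrib, hEB, Finset.sum_const, smul_eq_mul]
    have h4 : ∑ x ∈ R, G.degree x ≤ n * R.card := by
      calc ∑ x ∈ R, G.degree x ≤ ∑ x ∈ R, n := Finset.sum_le_sum hdR
        _ = n * R.card := by rw [Finset.sum_const, smul_eq_mul, mul_comm]
    have h5 : (A.card + B.card) * R.card ≤ n * R.card := Nat.mul_le_mul_right _ (by omega)
    rw [h1]
    nlinarith
  -- typical vertices
  set t := n / 20 with ht
  set A0 := A.filter (fun a => (B.filter (fun b => ¬ G.Adj a b)).card ≤ t) with hA0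
  set B0 := B.filter (fun b => (A.filter (fun a => ¬ G.Adj a b)).card ≤ t) with hB0
  have hA0A : A0 ⊆ A := Finset.filter_subset _ _
  have hB0B : B0 ⊆ B := Finset.filter_subset _ _
  have htn : n < 20 * (t + 1) := by omega
  have hatA : (A.card - A0.card) * (t + 1) ≤ NAB.card := by
    have h1 : A.card - A0.card = (A.filter (fun a => ¬ (B.filter (fun b => ¬ G.Adj a b)).card ≤ t)).card := by
      have h2 : A0.card + (A.filter (fun a => ¬ (B.filter (fun b => ¬ G.Adj a b)).card ≤ t)).card
          = A.card := Finset.card_filter_add_card_filter_not (s := A) _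
      omega
    rw [h1, ← hNA, ← smul_eq_mul, ← Finset.sum_const]
    refine le_trans (Finset.sum_le_sum (fun x hx => ?_))
      (Finset.sum_le_sum_of_subset (Finset.filter_subset _ _))
    rw [Finset.mem_filter] at hx
    omega
  have hatB : (B.card - B0.card) * (t + 1) ≤ NAB.card := by
    have h1 : B.card - B0.card = (B.filter (fun b => ¬ (A.filter (fun a => ¬ G.Adj a b)).card ≤ t)).card := by
      have h2 : B0.card + (B.filter (fun b => ¬ (A.filter (fun a => ¬ G.Adj a b)).card ≤ t)).card
          = B.card := Finset.card_filter_add_card_filter_not (s := B) _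
      omega
    rw [h1, ← hNB, ← smul_eq_mul, ← Finset.sum_const]
    refine le_trans (Finset.sum_le_sum (fun x hx => ?_))
      (Finset.sum_le_sum_of_subset (Finset.filter_subset _ _))
    rw [Finset.mem_filter] at hx
    omega
  have hA0c : A0.card ≤ A.card := Finset.card_le_card hA0A
  have hB0c : B0.card ≤ B.card := Finset.card_le_card hB0B
  have hdisj0 : Disjoint A0 B0 := Finset.disjoint_of_subset_left hA0A
    (Finset.disjoint_of_subset_right hB0B hdisj)
  have hW : ((A0 ∪ B0)ᶜ).card + (A0.card + B0.card) = n := by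
    have h1 := Finset.card_compl_add_card (A0 ∪ B0)
    rw [Finset.card_union_of_disjoint hdisj0, Fintype.card_fin] at h1
    exact h1
  -- arithmetic
  obtain ⟨r1, r2, r3⟩ := arith (n : ℝ) A.card B.card A0.card B0.card NAB.card EAB.card m hnR
    hcon (by exact_mod_cast hdeg) (by
      have : A.card + B.card ≤ n := by omega
      exact_mod_cast this) (by
      have h1 : (2 * m : ℝ) ≤ 2 * EAB.card + 2 * (n * R.card) := by exact_mod_cast hedges
      have h2 : (R.card : ℝ) + (A.card + B.card) = n := by exact_mod_cast hRc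
      have h3 : (R.card : ℝ) = n - A.card - B.card := by linarith
      rw [h3] at h1
      linarith) (by
      have : (EAB.card : ℝ) + NAB.card = A.card * B.card := by exact_mod_cast hsplit
      linarith) (by
      have h1 : (((A.card - A0.card : ℕ) : ℝ)) * (t + 1) ≤ NAB.card := by exact_mod_cast hatA
      rw [Nat.cast_sub hA0c] at h1
      have h2 : (n : ℝ) < 20 * (t + 1) := by exact_mod_cast htn
      have h3 : (0 : ℝ) ≤ (A.card : ℝ) - A0.card := by
        have : (A0.card : ℝ) ≤ A.card := by exact_mod_cast hA0c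
        linarith
      nlinarith) (by
      have h1 : (((B.card - B0.card : ℕ) : ℝ)) * (t + 1) ≤ NAB.card := by exact_mod_cast hatB
      rw [Nat.cast_sub hB0c] at h1
      have h2 : (n : ℝ) < 20 * (t + 1) := by exact_mod_cast htn
      have h3 : (0 : ℝ) ≤ (B.card : ℝ) - B0.card := by
        have : (B0.card : ℝ) ≤ B.card := by exact_mod_cast hB0c
        linarith
      nlinarith) (by exact_mod_cast hA0c) (by exact_mod_cast hB0c)
  have htR : (20 : ℝ) * t ≤ n := by
    have : 20 * t ≤ n := by omega
    exact_mod_cast this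
  have hA0big : 3 * t + 4 ≤ A0.card := by
    have : (3 * t + 4 : ℝ) ≤ A0.card := by linarith
    exact_mod_cast this
  have hB0big : 3 * t + 4 ≤ B0.card := by
    have : (3 * t + 4 : ℝ) ≤ B0.card := by linarith
    exact_mod_cast this
  have hcount := count G A0 B0 t
    (fun x hx y hy => hAi x (hA0A hx) y (hA0A hy))
    (fun x hx y hy => hBi x (hB0B hx) y (hB0B hy))
    hdisj0
    (fun a ha => le_trans (Finset.card_le_card (Finset.filter_subset_filter _ hB0B))
      (Finset.mem_filter.mp ha).2)
    (fun b hb => le_trans (Finset.card_le_card (Finset.filter_subset_filter _ hA0A))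
      (Finset.mem_filter.mp hb).2)
    hA0big hB0big hG hcrit
  have hlow : A0.card * B0.card ≤ ((A0 ×ˢ B0).filter (fun p => G.Adj p.1 p.2)).card + NAB.card := by
    rw [← Finset.card_product, ← Finset.card_filter_add_card_filter_not
      (s := A0 ×ˢ B0) (fun p => G.Adj p.1 p.2)]
    refine Nat.add_le_add_left (Finset.card_le_card ?_) _
    exact Finset.filter_subset_filter _ (Finset.product_subset_product hA0A hB0B)
  have hfin : A0.card * B0.card ≤ ((A0 ∪ B0)ᶜ).card * B0.card + NAB.card := le_trans hlow
    (Nat.add_le_add_right hcount _)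
  have hfinR : (A0.card : ℝ) * B0.card ≤ (((A0 ∪ B0)ᶜ).card : ℝ) * B0.card + NAB.card := by
    exact_mod_cast hfin
  have hWR : (((A0 ∪ B0)ᶜ).card : ℝ) + (A0.card + B0.card) = n := by exact_mod_cast hW
  have hWR' : (((A0 ∪ B0)ᶜ).card : ℝ) = n - A0.card - B0.card := by linarith
  rw [hWR'] at hfinR
  linarith

end Run7.h81.Crit4
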